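import Pool.Agent.Helper61.QE.St3
import Pool.Agent.Helper79.QD.M_RIJ

/-!
Project QD, PART E (MP_d112a4_gt), module HAT: the holomorphic self map.
-/

set_option autoImplicit false

open MeasureTheory Set Filter Topology Complex
open scoped ContDiff ComplexConjugate ENNReal

namespace Pool.Agent.Helper24.QE

open Pool.Agent.Helper68.QC Pool.Agent.Helper61.QE

private theorem hat_conj {f : ℂ → ℂ} (hf : DifferentiableOn ℂ f D) :
    DifferentiableOn ℂ (fun z => conj (f (conj z))) D := by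
  intro z hz
  have hz' : conj z ∈ D := by
    rw [mem_ball_zero_iff, RCLike.norm_conj]
    exact mem_ball_zero_iff.1 hz
  have h1 : DifferentiableAt ℂ f (conj z) :=
    (hf (conj z) hz').differentiableAt (Metric.isOpen_ball.mem_nhds hz')
  have h2 := h1.conj_conj
  rw [Complex.conj_conj] at h2
  exact h2.differentiableWithinAt

private theorem hat_conj_mem {z : ℂ} (hz : z ∈ D) : conj z ∈ D := by
  rw [mem_ball_zero_iff, RCLike.norm_conj]
  exact mem_ball_zero_iff.1 hz

private theorem hat_mob (hSUB : StSUB) {A : SL} (hA : SU A) {z : ℂ} (hz : z ∈ D) :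
    mob A z ∈ D := by
  obtain ⟨-, -, -, h4, h5, -⟩ := hSUB
  have hz1 : ‖z‖ < 1 := mem_ball_zero_iff.1 hz
  have hd := h4 A hA z hz1.le
  have he := h5 A hA z hd
  rw [mem_ball_zero_iff]
  by_contra hcon
  push Not at hcon
  have h6 : (1 - ‖mob A z‖ ^ 2) * ‖den A z‖ ^ 2 ≤ 0 :=
    mul_nonpos_of_nonpos_of_nonneg (by nlinarith) (by positivity)
  rw [he] at h6
  nlinarith [norm_nonneg z]

private theorem hat_alg (m y : ℂ) (hm : m ≠ 0) : m⁻¹ / (1 - y * m⁻¹) = (m - y)⁻¹ := by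
  have h : 1 - y * m⁻¹ = (m - y) * m⁻¹ := by
    rw [sub_mul, mul_inv_cancel₀ hm]
  rw [h, div_mul_cancel_right₀ (inv_ne_zero hm)]

/-- HAT: the holomorphic self map -/
theorem pHAT (hEX : Pool.Agent.Helper68.QC.StEX) (_hSYC : Pool.Agent.Helper68.QC.StSYC)
    (hSUB : Pool.Agent.Helper61.QE.StSUB) (hEDD : Pool.Agent.Helper61.QE.StEDD)
    (hCOE : Pool.Agent.Helper61.QE.StCOE) (hSNX : Pool.Agent.Helper61.QE.StSNX)
    (hCNJ : Pool.Agent.Helper61.QE.StCNJ) : Pool.Agent.Helper61.QE.StHAT := by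
  intro Γ _ s F h t0 G N R R' U P ν Ri Ri' hFu hFD hAb ht0 hSq hLm x0 hx0 A1 A2 hA2 hform hmap
  -- the coefficient
  have hkap : Kap s 0 (fun _ => 0) :=
    { bel := ⟨measurable_const, fun z => by simp⟩
      out := fun _ _ => rfl
      inv := fun γ => Eventually.of_forall fun z => by simp }
  obtain ⟨-, hc2, -⟩ := hCOE Γ s h (fun _ => 0) 0 hFu.su ⟨hAb.hol, hAb.eqv⟩ le_rfl hkap
  obtain ⟨hbel, -, hsym, -⟩ := hc2 t0
  obtain ⟨eD, -, -, -, -, -, -⟩ := hEDD ‖t0‖ ht0 (syX h t0) hbel hsym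
  set e : ℂ ≃ₜ ℂ := nq (syX h t0) with he
  have heD : ∀ z ∈ D, e z ∈ D := fun z hz => by
    rw [← eD]
    exact ⟨z, hz, rfl⟩
  have hesD : ∀ z ∈ D, e.symm z ∈ D := fun z hz => by
    rw [← eD] at hz
    obtain ⟨w, hw, rfl⟩ := hz
    rw [e.symm_apply_apply]
    exact hw
  -- the map g
  have hxP : ∀ u ∈ D, 1 - x0 * P u ≠ 0 := by
    intro u hu h0
    exact hSNX U G P hSq.gd hLm.phol hLm.pinj hLm.pzero hLm.pcon x0 hx0 u hu
      (sub_eq_zero.1 h0).symm
  set g : ℂ → ℂ := fun u => P u / (1 - x0 * P u) with hg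
  have hgd : DifferentiableOn ℂ g D :=
    hLm.phol.div ((differentiableOn_const _).sub ((differentiableOn_const _).mul hLm.phol)) hxP
  have hgi : InjOn g D := by
    intro u hu v hv huv
    apply hLm.pinj hu hv
    have h1 : P u / (1 - x0 * P u) = P v / (1 - x0 * P v) := huv
    rw [div_eq_div_iff (hxP u hu) (hxP v hv)] at h1
    linear_combination h1
  obtain ⟨-, -, gi, hgid, hgig⟩ := Pool.Agent.Helper79.QD.hRIJ D g Metric.isOpen_ball hgd hgi
  obtain ⟨hden, hcnj⟩ := hCNJ Γ s F h t0 G N R R' U P ν Ri Ri' hFu hFD ht0 hSq hLm x0 hx0 A1 A2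
    hA2 hform
  set b : ℂ → ℂ := fun u => A1 + A2 * (PG (nq ν) (P u) / (1 - nq ν x0 * PG (nq ν) (P u))) with hb
  have hν0 : nq ν 0 = 0 := (hEX ‖t0‖ ht0 ν hLm.nbel).zero
  -- the two forms of b
  have hbg : ∀ u ∈ D, b u ∈ g '' D := by
    intro u hu
    have h1 := hmap u hu
    have h2 : b u = A1 + A2 * (nq ν (x0 + (P u / (1 - x0 * P u))⁻¹) - nq ν x0)⁻¹ := by
      rw [hb]
      by_cases hP0 : P u = 0
      · simp [hP0, PG, hν0]
      · have h3 : x0 + (P u / (1 - x0 * P u))⁻¹ = (P u)⁻¹ := by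
          have := hxP u hu
          field_simp
          ring
        rw [h3]
        have hm : nq ν (P u)⁻¹ ≠ 0 := by
          intro h0
          rw [← hν0] at h0
          exact inv_ne_zero hP0 ((nq ν).injective h0)
        have h4 : PG (nq ν) (P u) = (nq ν (P u)⁻¹)⁻¹ := rfl
        simp only
        rw [h4, hat_alg _ _ hm]
    rw [h2]
    exact h1
  have hgib : ∀ u ∈ D, gi (b u) ∈ D ∧ g (gi (b u)) = b u := by
    intro u hu
    obtain ⟨v, hv, hvb⟩ := hbg u hu
    rw [← hvb, hgig v hv]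
    exact ⟨hv, rfl⟩
  -- the auxiliary map
  have hw : ∀ v ∈ D, conj (e.symm (conj v)) ∈ D := fun v hv =>
    hat_conj_mem (hesD _ (hat_conj_mem hv))
  have hBd : DifferentiableOn ℂ (fun v => b (conj (e.symm (conj v)))) D := by
    have h1 := hLm.qhol
    exact (differentiableOn_const _).add ((differentiableOn_const _).mul
      (h1.div ((differentiableOn_const _).sub ((differentiableOn_const _).mul h1))
        (fun v hv => hden _ (hw v hv))))
  have hAcd : DifferentiableOn ℂ (fun v => gi (b (conj (e.symm (conj v))))) D :=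
    hgid.comp hBd (fun v hv => hbg _ (hw v hv))
  refine ⟨fun z => conj (gi (b (conj (e.symm (conj (conj z)))))), hat_conj hAcd, ?_, ?_⟩
  · intro z hz
    have h1 : conj z ∈ D := hat_conj_mem hz
    exact hat_conj_mem (hgib _ (hw _ h1)).1
  · intro γ z hz
    obtain ⟨-, -, -, -, -, -, h7, -, h9, -⟩ := id hSUB
    have hSUγ := hFu.su γ
    have hSUj : SU (jj (s γ)) := (h7 (s γ) (s γ) hSUγ hSUγ).2.2
    have hcz : conj z ∈ D := hat_conj_mem hz
    simp only [Complex.conj_conj, e.symm_apply_apply]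
    obtain ⟨hv, hgv⟩ := hgib (conj z) hcz
    set v := gi (b (conj z)) with hvdef
    have h10 := hcnj γ (conj z) hcz v hv hgv
    have h11 : mob (jj (s γ)) (conj z) = conj (mob (s γ) z) := by
      rw [((h9 (s γ) hSUγ).2 (conj z)).1, Complex.conj_conj]
    rw [h11] at h10
    have h12 : mob (jj (s γ)) v ∈ D := hat_mob hSUB hSUj hv
    have h13 : gi (b (conj (mob (s γ) z))) = mob (jj (s γ)) v := by
      have h14 : b (conj (mob (s γ) z)) = g (mob (jj (s γ)) v) := h10.symm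
      rw [h14, hgig _ h12]
    rw [h13, ((h9 (s γ) hSUγ).2 v).1, Complex.conj_conj]

end Pool.Agent.Helper24.QE
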