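import Pool.Agent.Helper61.QE.St2

/-!
Project QD, PART E (MP_d112a4_gt), module SIN: the concentration set is invariant.
-/

set_option autoImplicit false

open MeasureTheory Set Filter Topology Complex
open scoped ContDiff ComplexConjugate ENNReal

namespace Pool.Agent.Helper24.QE

open Pool.Agent.Helper68.QC Pool.Agent.Helper61.QE

/-- uniform control of Moebius maps near a point which is not a pole -/
private theorem sin_near (U : Filter ℕ) (B : ℕ → SL) (A : SL)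
    (hB : ∀ i j, Tendsto (fun n => B n i j) U (𝓝 (A i j))) (x : ℂ) (hx : den A x ≠ 0)
    {ε : ℝ} (hε : 0 < ε) :
    ∃ ε1 > 0, ∃ C > 0, ∀ᶠ n in U, ∀ ξ ∈ Metric.ball x ε1,
      ‖mob (B n) ξ - mob A x‖ < ε ∧ ‖den (B n) ξ‖ ≤ C := by
  let q : ℂ × ℂ × ℂ × ℂ := (A 0 0, A 0 1, A 1 0, A 1 1)
  let dn : (ℂ × ℂ × ℂ × ℂ) × ℂ → ℂ := fun p => p.1.2.2.1 * p.2 + p.1.2.2.2
  let mo : (ℂ × ℂ × ℂ × ℂ) × ℂ → ℂ := fun p => (p.1.1 * p.2 + p.1.2.1) / dn p
  have hdc : Continuous dn := by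
    simp only [dn]
    fun_prop
  have hnc : Continuous (fun p : (ℂ × ℂ × ℂ × ℂ) × ℂ => p.1.1 * p.2 + p.1.2.1) := by fun_prop
  have hd0 : dn (q, x) ≠ 0 := hx
  have hmc : ContinuousAt mo (q, x) := hnc.continuousAt.div hdc.continuousAt hd0
  have e1 : ∀ᶠ p in 𝓝 (q, x), ‖mo p - mo (q, x)‖ < ε := by
    have h1 : ContinuousAt (fun p => ‖mo p - mo (q, x)‖) (q, x) :=
      (hmc.sub continuousAt_const).norm
    refine h1.eventually_lt_const ?_
    change ‖mo (q, x) - mo (q, x)‖ < ε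
    rw [sub_self, norm_zero]
    exact hε
  have e2 : ∀ᶠ p in 𝓝 (q, x), ‖dn p‖ < ‖dn (q, x)‖ + 1 := by
    have h1 : ContinuousAt (fun p => ‖dn p‖) (q, x) := hdc.continuousAt.norm
    exact h1.eventually_lt_const (by linarith)
  have e3 := e1.and e2
  rw [nhds_prod_eq, Filter.eventually_prod_iff] at e3
  obtain ⟨pa, ha, pb, hb, hab⟩ := e3
  obtain ⟨ε1, hε1, hball⟩ := Metric.eventually_nhds_iff_ball.1 hb
  refine ⟨ε1, hε1, ‖dn (q, x)‖ + 1, by positivity, ?_⟩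
  have ht : Tendsto (fun n => (B n 0 0, B n 0 1, B n 1 0, B n 1 1)) U (𝓝 q) :=
    (hB 0 0).prodMk_nhds ((hB 0 1).prodMk_nhds ((hB 1 0).prodMk_nhds (hB 1 1)))
  filter_upwards [ht.eventually ha] with n hn ξ hξ
  obtain ⟨g1, g2⟩ := hab hn (hball ξ hξ)
  exact ⟨g1, g2.le⟩

/-- SIN: the concentration set is invariant -/
theorem pSIN (_hSUB : Pool.Agent.Helper61.QE.StSUB) (hMBF : Pool.Agent.Helper61.QE.StMBF)
    (hIND : Pool.Agent.Helper61.QE.StIND) (hSNX : Pool.Agent.Helper61.QE.StSNX)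
    (hEQP : Pool.Agent.Helper61.QE.StEQP) : Pool.Agent.Helper61.QE.StSIN := by
  intro Γ _ s F h t0 G N R R' U P ν Ri Ri' hFu hFD ht0 hSq hLm x hx γ
  obtain ⟨-, -, hpole, -⟩ := hEQP Γ s F h t0 G N R R' U P ν Ri Ri' hFu ht0 hSq hLm
  have hden : den (Ri γ) x ≠ 0 := by
    by_cases hγ : γ = 1
    · rw [hγ, map_one]
      unfold den
      simp
    · obtain ⟨h1, h2, h3⟩ := hpole γ hγ
      intro h0
      rw [(hMBF (Ri γ) h1).1 x] at h0
      rcases mul_eq_zero.1 h0 with h4 | h4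
      · exact h1 h4
      · have h5 : x = pl (Ri γ) := sub_eq_zero.1 h4
        rw [← h5] at h3
        exact hSNX U G P hSq.gd hLm.phol hLm.pinj hLm.pzero hLm.pcon x hx _
          (mem_ball_zero_iff.2 h2) h3
  refine ⟨hden, ?_⟩
  intro ε hε
  obtain ⟨ε1, hε1, C, hC, hev⟩ := sin_near (U : Filter ℕ) (fun n => R n γ) (Ri γ)
    (fun i j => hLm.rcon γ i j) x hden hε
  obtain ⟨c, hc0, hct, hcev⟩ := hx ε1 hε1
  refine ⟨ENNReal.ofReal (C⁻¹ ^ 4) * c, ?_, ENNReal.mul_ne_top ENNReal.ofReal_ne_top hct, ?_⟩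
  · exact ENNReal.mul_pos (ENNReal.ofReal_pos.2 (by positivity)).ne' hc0.ne'
  filter_upwards [hev, hcev] with n h1 h2
  obtain ⟨i1, i2, -⟩ := hIND Γ s F (G n) (R n) hFu hFD (hSq.gint n)
  have hopen : IsOpen (G n '' D) := (G n).isOpenMap _ Metric.isOpen_ball
  set E : Set ℂ := G n '' D ∩ Metric.ball x ε1 with hE
  have hEm : MeasurableSet E := hopen.measurableSet.inter Metric.isOpen_ball.measurableSet
  have hcv := i2 γ E inter_subset_left hEm (fun _ => 1) measurable_const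
  simp only [one_mul] at hcv
  rw [setLIntegral_one] at hcv
  have hsub : mob (R n γ) '' E ⊆ G n '' D ∩ Metric.ball (mob (Ri γ) x) ε := by
    rintro _ ⟨ξ, hξ, rfl⟩
    refine ⟨(i1 γ ξ hξ.1).2.1, ?_⟩
    rw [Metric.mem_ball, dist_eq_norm]
    exact (h1 ξ hξ.2).1
  have hlow : ENNReal.ofReal (C⁻¹ ^ 4) * volume E ≤
      ∫⁻ ξ in E, ENNReal.ofReal (‖den (R n γ) ξ‖⁻¹ ^ 4) := by
    rw [← setLIntegral_const]
    refine setLIntegral_mono' hEm ?_
    intro ξ hξ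
    apply ENNReal.ofReal_le_ofReal
    have g1 : 0 < ‖den (R n γ) ξ‖ := norm_pos_iff.2 (i1 γ ξ hξ.1).1
    have g2 : C⁻¹ ≤ ‖den (R n γ) ξ‖⁻¹ := inv_anti₀ g1 (h1 ξ hξ.2).2
    exact pow_le_pow_left₀ (by positivity) g2 4
  calc ENNReal.ofReal (C⁻¹ ^ 4) * c * volume (G n '' D)
      = ENNReal.ofReal (C⁻¹ ^ 4) * (c * volume (G n '' D)) := mul_assoc _ _ _
    _ ≤ ENNReal.ofReal (C⁻¹ ^ 4) * volume E := mul_le_mul' le_rfl h2
    _ ≤ volume (mob (R n γ) '' E) := by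
        rw [← hcv]
        exact hlow
    _ ≤ _ := measure_mono hsub

end Pool.Agent.Helper24.QE
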